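import Pool.Agent.H88.CL.Targets

/-! Closing lemma on the torus: one bump. -/

set_option autoImplicit false

open Set Function Topology Metric Filter

namespace Pool.Agent.H59.CLo

open Pool.Agent.H88.CL

theorem pf_OBP (h : T_BMP) : T_OBP := by
  intro d
  obtain ⟨φ, C, hC, hφ, h1, h0, hb, hd, hL⟩ := h d
  refine ⟨C, hC, ?_⟩
  intro T κ D c v w hT hD
  have hC0 : 0 ≤ C := by linarith
  obtain ⟨M, hM⟩ : ∃ M : E d →L[ℝ] E d, M = D⁻¹ • T := ⟨_, rfl⟩
  obtain ⟨ψ, hψd⟩ : ∃ ψ : E d → E d, ψ = fun y => D⁻¹ • (T (y - c) - v) := ⟨_, rfl⟩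
  have hMn : ‖M‖ ≤ κ / D := by
    rw [hM, norm_smul, norm_inv, Real.norm_eq_abs, abs_of_pos hD, inv_mul_le_iff₀ hD]
    rw [mul_div_cancel₀ _ hD.ne']
    exact hT
  have hκ : 0 ≤ κ / D := (norm_nonneg _).trans hMn
  have hψ : ∀ y, HasFDerivAt ψ M y := by
    intro y
    rw [hψd, hM]
    have e1 : HasFDerivAt (fun y : E d => T (y - c)) T y := by
      have := (T.hasFDerivAt (x := y - c)).comp y ((hasFDerivAt_id y).sub_const c)
      exact this
    exact (e1.sub_const v).const_smul D⁻¹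
  have hψc : ContDiff ℝ 2 ψ := by
    rw [hψd]
    exact ((T.contDiff.comp (contDiff_id.sub contDiff_const)).sub contDiff_const).const_smul D⁻¹
  have hdiff : Differentiable ℝ φ := hφ.differentiable (by norm_num)
  have hu : ∀ y, HasFDerivAt (fun y => φ (ψ y) • w)
      (((fderiv ℝ φ (ψ y)).comp M).smulRight w) y := fun y =>
    ((hdiff (ψ y)).hasFDerivAt.comp y (hψ y)).smul_const w
  have hnψ : ∀ y, ‖ψ y‖ = ‖T (y - c) - v‖ / D := by
    intro y
    rw [hψd]
    simp only
    rw [norm_smul, norm_inv, Real.norm_eq_abs, abs_of_pos hD, inv_mul_eq_div]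
  refine ⟨fun y => φ (ψ y) • w, (hφ.comp hψc).smul contDiff_const, ?_, ?_, ?_, ?_, ?_⟩
  · intro y
    rw [norm_smul, Real.norm_eq_abs]
    exact mul_le_of_le_one_left (norm_nonneg _) (hb _)
  · intro y
    rw [(hu y).fderiv, ContinuousLinearMap.norm_smulRight_apply]
    apply mul_le_mul_of_nonneg_right _ (norm_nonneg _)
    exact (ContinuousLinearMap.opNorm_comp_le _ _).trans
      (mul_le_mul (hd _) hMn (norm_nonneg _) hC0)
  · intro y y'
    rw [(hu y).fderiv, (hu y').fderiv]
    have e1 : (((fderiv ℝ φ (ψ y)).comp M).smulRight w) -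
        (((fderiv ℝ φ (ψ y')).comp M).smulRight w) =
        (((fderiv ℝ φ (ψ y) - fderiv ℝ φ (ψ y')).comp M).smulRight w) := by
      ext1 z
      simp only [ContinuousLinearMap.sub_apply, ContinuousLinearMap.smulRight_apply,
        ContinuousLinearMap.comp_apply, sub_smul]
    rw [e1, ContinuousLinearMap.norm_smulRight_apply]
    have e2 : ψ y - ψ y' = M (y - y') := by
      rw [hψd, hM]
      simp only [ContinuousLinearMap.smul_apply]
      rw [← smul_sub]
      congr 1
      rw [sub_sub_sub_cancel_right, ← map_sub]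
      congr 1
      abel
    have e3 : ‖ψ y - ψ y'‖ ≤ κ / D * ‖y - y'‖ := by
      rw [e2]
      exact (M.le_opNorm _).trans (mul_le_mul_of_nonneg_right hMn (norm_nonneg _))
    have e4 : ‖(fderiv ℝ φ (ψ y) - fderiv ℝ φ (ψ y')).comp M‖ ≤
        (C * (κ / D * ‖y - y'‖)) * (κ / D) := by
      refine (ContinuousLinearMap.opNorm_comp_le _ _).trans ?_
      refine mul_le_mul ?_ hMn (norm_nonneg _) (by positivity)
      exact (hL _ _).trans (mul_le_mul_of_nonneg_left e3 hC0)
    refine (mul_le_mul_of_nonneg_right e4 (norm_nonneg w)).trans (le_of_eq ?_)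
    ring
  · intro y hy
    simp only
    rw [h1 (ψ y) (by rw [hnψ, div_le_iff₀ hD]; exact hy), one_smul]
  · intro y hy
    by_contra hlt
    push Not at hlt
    apply hy
    simp only
    rw [h0 (ψ y) (by rw [hnψ, le_div_iff₀ hD]; exact hlt.le), zero_smul]

end Pool.Agent.H59.CLo
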